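import Pool.Agent.helper66.PX.Spec

set_option autoImplicit false

open scoped TensorProduct

noncomputable section

namespace Pool.Agent.PX

universe u v w

/-- a maximal set of pairwise commuting elements is its own centralizer -/
theorem DN_max (D : Type w) [Ring D] :
    ∃ Z : Set D, (∀ a ∈ Z, ∀ b ∈ Z, a * b = b * a) ∧ (∀ d : D, (∀ a ∈ Z, a * d = d * a) → d ∈ Z) := by
  obtain ⟨Z, hZ⟩ := zorn_subset {Z : Set D | ∀ a ∈ Z, ∀ b ∈ Z, a * b = b * a} (by
    intro c hc hchain
    refine ⟨⋃₀ c, ?_, fun s hs => Set.subset_sUnion_of_mem hs⟩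
    rintro a ⟨s, hs, ha⟩ b ⟨t, ht, hb⟩
    rcases hchain.total hs ht with h | h
    · exact hc ht a (h ha) b hb
    · exact hc hs a ha b (h hb))
  refine ⟨Z, hZ.1, fun d hd => ?_⟩
  have h1 : insert d Z ∈ {Z : Set D | ∀ a ∈ Z, ∀ b ∈ Z, a * b = b * a} := by
    intro a ha b hb
    rcases ha with rfl | ha
    · rcases hb with rfl | hb
      · rfl
      · exact (hd b hb).symm
    · rcases hb with rfl | hb
      · exact hd a ha
      · exact hZ.1 a ha b hb
  have h2 := hZ.2 h1 (Set.subset_insert d Z)
  exact h2 (Set.mem_insert d Z)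

theorem DN_field (K : Type u) (S : Type v) (M : Type w) [Field K] [Ring S] [Algebra K S] [AddCommGroup M]
    [Module K M] [Module S M] [IsScalarTower K S M] [IsSimpleModule S M] :
    ∃ (L : Type w) (_ : Field L) (_ : Algebra K L) (_ : Module L M) (_ : IsScalarTower K L M) (_ : SMulCommClass S L M),
      ∀ f : M →+ M, (∀ (s : S) (m : M), f (s • m) = s • f m) → (∀ (l : L) (m : M), f (l • m) = l • f m) →
        ∃ l : L, ∀ m, f m = l • m := by
  classical
  have hc1 : SMulCommClass S K M := IsScalarTower.to_smulCommClass'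
  obtain ⟨Z, hZ1, hZ2⟩ := DN_max (Module.End S M)
  let L : Subalgebra K (Module.End S M) := Subalgebra.centralizer K Z
  have hLZ : ∀ a : Module.End S M, a ∈ L ↔ a ∈ Z := by
    intro a
    rw [Subalgebra.mem_centralizer_iff]
    exact ⟨fun h => hZ2 a h, fun h g hg => hZ1 g hg a h⟩
  have hcomm : ∀ a b : L, a * b = b * a := by
    intro a b
    apply Subtype.ext
    exact hZ1 _ ((hLZ _).1 a.2) _ ((hLZ _).1 b.2)
  let cr : CommRing L := { (inferInstance : Ring L) with mul_comm := hcomm }
  have hfield : IsField L := by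
    refine ⟨⟨0, 1, ?_⟩, mul_comm, ?_⟩
    · intro h
      have := IsSimpleModule.nontrivial S M
      exact zero_ne_one (congrArg Subtype.val h)
    · intro a ha
      have ha' : (a : Module.End S M) ≠ 0 := fun h => ha (Subtype.ext h)
      have h1 : (a : Module.End S M) * (a : Module.End S M)⁻¹ = 1 := mul_inv_cancel₀ ha'
      have h2 : (a : Module.End S M)⁻¹ * (a : Module.End S M) = 1 := inv_mul_cancel₀ ha'
      have hmem : (a : Module.End S M)⁻¹ ∈ L := by
        rw [hLZ]
        apply hZ2
        intro c hc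
        have h3 : c * (a : Module.End S M) = a * c := hZ1 c hc _ ((hLZ _).1 a.2)
        calc c * (a : Module.End S M)⁻¹ = ((a : Module.End S M)⁻¹ * a) * c * (a : Module.End S M)⁻¹ := by
              rw [h2, one_mul]
          _ = (a : Module.End S M)⁻¹ * (a * c) * (a : Module.End S M)⁻¹ := by rw [mul_assoc (a : Module.End S M)⁻¹]
          _ = (a : Module.End S M)⁻¹ * (c * a) * (a : Module.End S M)⁻¹ := by rw [h3]
          _ = (a : Module.End S M)⁻¹ * c * (a * (a : Module.End S M)⁻¹) := by simp only [mul_assoc]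
          _ = (a : Module.End S M)⁻¹ * c := by rw [h1, mul_one]
      exact ⟨⟨_, hmem⟩, Subtype.ext h1⟩
  let fl : Field L := hfield.toField
  refine ⟨L, fl, inferInstanceAs (Algebra K L), inferInstanceAs (Module L M), inferInstanceAs (IsScalarTower K L M), ?_, ?_⟩
  · refine ⟨fun s l m => ?_⟩
    exact ((l : Module.End S M).map_smul s m).symm
  · intro f hf1 hf2
    let g : Module.End S M := { toFun := f, map_add' := f.map_add, map_smul' := hf1 }
    have hg : g ∈ L := by
      rw [hLZ]
      apply hZ2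
      intro a ha
      ext m
      exact (hf2 ⟨a, (hLZ a).2 ha⟩ m).symm
    exact ⟨⟨g, hg⟩, fun m => rfl⟩

/-- density, without the ideal -/
theorem DN_top (K : Type u) (S : Type v) (M L : Type w) [Field K] [Ring S] [Algebra K S] [AddCommGroup M]
    [Module K M] [Module S M] [IsScalarTower K S M] [IsSimpleModule S M] [Field L] [Algebra K L] [Module L M]
    [IsScalarTower K L M] [SMulCommClass S L M]
    (hL : ∀ f : M →+ M, (∀ (s : S) (m : M), f (s • m) = s • f m) → (∀ (l : L) (m : M), f (l • m) = l • f m) →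
        ∃ l : L, ∀ m, f m = l • m) (φ : M →ₗ[L] M) (t : Finset M) :
    ∃ l : List (L × S), ∀ m ∈ t, φ m = (l.map fun p => p.1 • p.2 • m).sum := by
  have hsc : SMulCommClass L S M := SMulCommClass.symm _ _ _
  let _ : Module (L ⊗[K] S) M := TensorProduct.Algebra.module
  have hsmul : ∀ (l : L) (s : S) (m : M), (l ⊗ₜ[K] s : L ⊗[K] S) • m = l • s • m := fun l s m =>
    TensorProduct.Algebra.smul_def l s m
  have hsimple : IsSimpleModule (L ⊗[K] S) M := by
    rw [isSimpleModule_iff_toSpanSingleton_surjective]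
    refine ⟨IsSimpleModule.nontrivial S M, fun m hm y => ?_⟩
    obtain ⟨s, hs⟩ := IsSimpleModule.toSpanSingleton_surjective S hm y
    refine ⟨(1 : L) ⊗ₜ[K] s, ?_⟩
    rw [LinearMap.toSpanSingleton_apply] at hs ⊢
    rw [hsmul, one_smul, hs]
  have hcommut : ∀ f : Module.End (L ⊗[K] S) M, ∀ m : M, φ (f m) = f (φ m) := by
    intro f m
    obtain ⟨l, hl⟩ := hL f.toAddMonoidHom (fun s m => by
      have h := f.map_smul ((1 : L) ⊗ₜ[K] s) m
      rw [hsmul, hsmul, one_smul, one_smul] at h
      exact h) (fun l m => by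
      have h := f.map_smul (l ⊗ₜ[K] (1 : S)) m
      rw [hsmul, hsmul, one_smul, one_smul] at h
      exact h)
    have h1 : ∀ m, f m = l • m := hl
    rw [h1, h1, φ.map_smul]
  let g : Module.End (Module.End (L ⊗[K] S) M) M :=
    { toFun := φ, map_add' := φ.map_add, map_smul' := hcommut }
  obtain ⟨r, hr⟩ := jacobson_density (R := L ⊗[K] S) g t
  have hlist : ∀ r : L ⊗[K] S, ∃ l : List (L × S), ∀ m : M, r • m = (l.map fun p => p.1 • p.2 • m).sum := by
    intro r
    induction r using TensorProduct.induction_on with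
    | zero => exact ⟨[], fun m => by simp⟩
    | tmul a b => exact ⟨[(a, b)], fun m => by simp [hsmul]⟩
    | add x y hx hy =>
      obtain ⟨l1, h1⟩ := hx
      obtain ⟨l2, h2⟩ := hy
      exact ⟨l1 ++ l2, fun m => by rw [add_smul, h1, h2, List.map_append, List.sum_append]⟩
  obtain ⟨l, hl⟩ := hlist r
  exact ⟨l, fun m hm => (hr m hm).trans (hl m)⟩

/-- general ideals -/
theorem DN_ideal (K : Type u) (S : Type v) (M L : Type w) [Field K] [Ring S] [Algebra K S] [AddCommGroup M]
    [Module K M] [Module S M] [IsScalarTower K S M] [IsSimpleModule S M] [Field L] [Algebra K L] [Module L M]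
    [IsScalarTower K L M] [SMulCommClass S L M]
    (htop : ∀ (φ : M →ₗ[L] M) (t : Finset M),
      ∃ l : List (L × S), ∀ m ∈ t, φ m = (l.map fun p => p.1 • p.2 • m).sum)
    (J : Ideal S) (hJ : ∀ a ∈ J, ∀ b : S, a * b ∈ J) (hJ0 : ∃ j ∈ J, ∃ m : M, j • m ≠ 0) : DenseJ S M L J := by
  classical
  have hcs : ∀ (s : S) (l : L) (m : M), s • l • m = l • s • m := fun s l m => smul_comm s l m
  -- `J m = M` for `m ≠ 0`
  have hJm : ∀ m : M, m ≠ 0 → ∀ y : M, ∃ j ∈ J, j • m = y := by
    intro m hm y
    obtain ⟨j0, hj0, m0, hm0⟩ := hJ0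
    obtain ⟨s, hs⟩ := IsSimpleModule.toSpanSingleton_surjective S hm m0
    obtain ⟨s', hs'⟩ := IsSimpleModule.toSpanSingleton_surjective S hm0 y
    rw [LinearMap.toSpanSingleton_apply] at hs hs'
    refine ⟨s' * (j0 * s), J.mul_mem_left _ (hJ _ hj0 _), ?_⟩
    rw [mul_smul, mul_smul, hs, hs']
  intro φ t
  let V : Submodule L M := Submodule.span L (t : Set M)
  have hfin : Module.Finite L V := Module.Finite.span_of_finite L t.finite_toSet
  let bV := Module.finBasis L V
  let n := Module.finrank L V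
  let v : Fin n → M := fun i => (bV i : M)
  have hvlin : LinearIndependent L v := bV.linearIndependent.map' V.subtype (Submodule.ker_subtype V)
  -- linear maps with prescribed values
  have hext : ∀ f : Fin n → M, ∃ ψ : M →ₗ[L] M, ∀ i, ψ (v i) = f i := by
    intro f
    obtain ⟨ψ, hψ⟩ := LinearMap.exists_extend (bV.constr L f)
    refine ⟨ψ, fun i => ?_⟩
    have h1 : (ψ.comp V.subtype) (bV i) = (bV.constr L f) (bV i) := by rw [hψ]
    rw [Module.Basis.constr_basis] at h1
    exact h1
  have hv0 : ∀ i, v i ≠ 0 := fun i => hvlin.ne_zero i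
  have hq : ∀ i : Fin n, ∃ l : List (L × S), ∀ h : Fin n, (l.map fun p => p.1 • p.2 • v h).sum = if h = i then v i else 0 := by
    intro i
    obtain ⟨ψ, hψ⟩ := hext (fun h => if h = i then v i else 0)
    obtain ⟨l, hl⟩ := htop ψ (Finset.univ.image v)
    refine ⟨l, fun h => ?_⟩
    rw [← hl (v h) (Finset.mem_image_of_mem _ (Finset.mem_univ h)), hψ]
  choose q hq using hq
  have hj : ∀ i : Fin n, ∃ j ∈ J, j • v i = φ (v i) := fun i => hJm (v i) (hv0 i) _
  choose j hjJ hj using hj
  -- the combination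
  let l : List (L × S) := (List.ofFn fun i : Fin n => (q i).map fun p => (p.1, j i * p.2)).flatten
  have hlJ : ∀ p ∈ l, p.2 ∈ J := by
    intro p hp
    obtain ⟨l', hl', hp'⟩ := List.mem_flatten.1 hp
    obtain ⟨i, rfl⟩ := List.mem_ofFn.1 hl'
    obtain ⟨p0, hp0, rfl⟩ := List.mem_map.1 hp'
    exact hJ _ (hjJ i) _
  have hpart : ∀ (i : Fin n) (m : M), (((q i).map fun p => (p.1, j i * p.2)).map fun p : L × S => p.1 • p.2 • m).sum =
      j i • ((q i).map fun p => p.1 • p.2 • m).sum := by
    intro i m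
    rw [List.map_map]
    induction q i with
    | nil => simp
    | cons a l ih =>
      rw [List.map_cons, List.sum_cons, List.map_cons, List.sum_cons, smul_add, ih]
      congr 1
      show a.1 • (j i * a.2) • m = j i • a.1 • a.2 • m
      rw [mul_smul, hcs]
  have hsum : ∀ m : M, (l.map fun p => p.1 • p.2 • m).sum = ∑ i : Fin n, j i • ((q i).map fun p => p.1 • p.2 • m).sum := by
    intro m
    rw [List.map_flatten, List.sum_flatten, List.map_map, List.map_ofFn, List.sum_ofFn]
    refine Finset.sum_congr rfl fun i _ => ?_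
    exact hpart i m
  -- linear map given by `l`
  have hlin : ∀ l : List (L × S), ∃ ψ : M →ₗ[L] M, ∀ m, ψ m = (l.map fun p => p.1 • p.2 • m).sum := by
    intro l
    refine ⟨{ toFun := fun m => (l.map fun p => p.1 • p.2 • m).sum, map_add' := ?_, map_smul' := ?_ }, fun m => rfl⟩
    · intro x y
      induction l with
      | nil => simp
      | cons a l ih =>
        simp only [List.map_cons, List.sum_cons, smul_add]
        simp only [smul_add] at ih
        rw [ih]
        abel
    · intro c x
      induction l with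
      | nil => simp
      | cons a l ih =>
        simp only [List.map_cons, List.sum_cons, smul_add, RingHom.id_apply]
        simp only [RingHom.id_apply] at ih
        rw [ih, hcs, smul_comm c a.1]
  obtain ⟨ψ, hψ⟩ := hlin l
  refine ⟨l, hlJ, fun m hm => ?_⟩
  rw [← hψ]
  have hVm : (⟨m, Submodule.subset_span hm⟩ : V) ∈ (⊤ : Submodule L V) := trivial
  have heq : φ.comp V.subtype = ψ.comp V.subtype := by
    apply bV.ext
    intro i
    show φ (v i) = ψ (v i)
    rw [hψ, hsum]
    have : ∀ i' : Fin n, j i' • ((q i').map fun p => p.1 • p.2 • v i).sum = if i' = i then φ (v i) else 0 := by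
      intro i'
      rw [hq]
      by_cases h : i' = i
      · subst h
        rw [if_pos rfl, if_pos rfl, hj]
      · rw [if_neg (fun hh => h hh.symm), if_neg h, smul_zero]
    rw [Finset.sum_congr rfl fun i' _ => this i']
    simp
  exact congrArg (fun f => f ⟨m, Submodule.subset_span hm⟩) heq

theorem DN : DN_stmt.{u, v, w} := by
  intro K S M _ _ _ _ _ _ _ hsimple J hJ hJ0
  obtain ⟨L, i1, i2, i3, i4, i5, hL⟩ := DN_field K S M
  exact ⟨L, i1, i2, i3, i4, i5, DN_ideal K S M L (DN_top K S M L hL) J hJ hJ0⟩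

end Pool.Agent.PX
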